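import Pool.Agent.H.MP_9d9f8d_ag.D

set_option autoImplicit false

namespace Pool.Agent.Sdef

open Pool.Agent.PdFun Pool.Agent.PdSym MvPolynomial

variable {k : Type} [Field k]

lemma rank_quot {σ : Type} {E E' : Set (σ →₀ ℕ)} (hE : Up E) (hE' : Up E') (B : Finset (σ →₀ ℕ))
    (h : ∀ m, m ∈ B ↔ m ∈ E ∧ m ∉ E') :
    Module.finrank k (MI k E ⧸ Submodule.submoduleOf (MI k E') (MI k E)) = B.card := by
  classical
  let φ : MI k E →ₗ[k] (B → k) := LinearMap.pi fun b =>
    (lcoeff k b.1).comp ((MI k E).subtype.restrictScalars k)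
  have h1 : Function.Surjective φ := by
    intro c
    refine ⟨⟨∑ b : B, monomial b.1 (c b), Ideal.sum_mem _ fun b _ => (mem_MI hE).2 fun m hm => ?_⟩,
      funext fun b => ?_⟩
    · rw [Finset.mem_singleton.1 (support_monomial_subset hm)]
      exact ((h _).1 b.2).1
    · simp [φ, coeff_monomial]
  have h2 : (Submodule.submoduleOf (MI k E') (MI k E)).restrictScalars k = LinearMap.ker φ := by
    ext ⟨f, hf⟩
    change f ∈ MI k E' ↔ _
    rw [mem_MI hE', LinearMap.mem_ker, funext_iff]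
    refine ⟨fun h3 b => ?_, fun h3 m hm => ?_⟩
    · exact by_contra fun h4 => ((h _).1 b.2).2 (h3 _ (mem_support_iff.2 h4))
    · exact by_contra fun h4 => mem_support_iff.1 hm (h3 ⟨m, (h m).2 ⟨(mem_MI hE).1 hf m hm, h4⟩⟩)
  rw [← (Submodule.Quotient.restrictScalarsEquiv k _).finrank_eq,
    (Submodule.quotEquivOfEq _ _ h2).finrank_eq, (φ.quotKerEquivOfSurjective h1).finrank_eq]
  simp

/-- Exponent vectors. -/
noncomputable def v3 (a b c : ℕ) : Fin 3 →₀ ℕ := Finsupp.equivFunOnFinite.symm ![a, b, c]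

@[simp] lemma v0 (a b c : ℕ) : v3 a b c 0 = a := rfl
@[simp] lemma v1 (a b c : ℕ) : v3 a b c 1 = b := rfl
@[simp] lemma v2 (a b c : ℕ) : v3 a b c 2 = c := rfl

lemma ext3 {m m' : Fin 3 →₀ ℕ} (h0 : m 0 = m' 0) (h1 : m 1 = m' 1) (h2 : m 2 = m' 2) : m = m' := by
  ext i
  fin_cases i <;> assumption

lemma mono3 (a b c : ℕ) : (monomial (v3 a b c) 1 : MvPolynomial (Fin 3) k) =
    X 0 ^ a * X 1 ^ b * X 2 ^ c := by
  rw [monomial_eq, Finsupp.prod_fintype _ _ (by simp), Fin.prod_univ_three]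
  simp

/-- The two primary components. -/
def F (n : ℕ) (e : Bool) : Set (Fin 3 →₀ ℕ) :=
  {m | if e then 2 * n ≤ 2 * m 0 + m 1 else 2 * n ≤ m 1 + m 2 ∧ 3 * n ≤ m 1 + 2 * m 2}

/-- The supports of the two primes. -/
def G (e : Bool) : Finset (Fin 3) := if e then {0, 1} else {1, 2}

lemma F_dep (n : ℕ) (e : Bool) : Dep (G e) (F n e) := by
  intro m hm m' h
  cases e <;> simp [F, G] at hm h ⊢ <;> omega

lemma F_pow (e : Bool) : ∀ n, MI k (F 1 e) ^ n = MI k (F n e)
  | 0 => by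
    rw [pow_zero, Ideal.one_eq_top, eq_comm, Ideal.eq_top_iff_one]
    exact mono_mem_MI (m := 0) (by cases e <;> simp [F])
  | n + 1 => by
    rw [pow_succ, F_pow e n]
    refine MI_mul fun m => ⟨fun h => ?_, ?_⟩
    · have key : ∀ a b c, a ≤ m 0 → b ≤ m 1 → c ≤ m 2 → v3 (m 0 - a) (m 1 - b) (m 2 - c) ∈ F n e →
          v3 a b c ∈ F 1 e → ∃ a ∈ F n e, ∃ b ∈ F 1 e, a + b = m := fun a b c h0 h1 h2 h3 h4 =>
        ⟨_, h3, _, h4, ext3 (by simp; omega) (by simp; omega) (by simp; omega)⟩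
      cases e <;> simp only [F, Set.mem_ofPred_eq, if_true, Bool.false_eq_true, if_false, v0, v1,
        v2] at h key ⊢
      · by_cases h1 : m 1 = 0
        · exact key 0 0 2 (by omega) (by omega) (by omega) (by omega) (by omega)
        by_cases h2 : m 2 = 0
        · exact key 0 3 0 (by omega) (by omega) (by omega) (by omega) (by omega)
        · exact key 0 1 1 (by omega) (by omega) (by omega) (by omega) (by omega)
      · by_cases h1 : m 0 = 0
        · exact key 0 2 0 (by omega) (by omega) (by omega) (by omega) (by omega)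
        · exact key 1 0 0 (by omega) (by omega) (by omega) (by omega) (by omega)
    · rintro ⟨a, ha, b, hb, rfl⟩
      cases e <;> simp [F] at ha hb ⊢ <;> omega

/-- The exponents of the symbolic power. -/
def E (n : ℕ) : Set (Fin 3 →₀ ℕ) := {m | ∀ e, m ∈ F n e}

lemma mem_E {n : ℕ} {m : Fin 3 →₀ ℕ} : m ∈ E n ↔
    2 * n ≤ 2 * m 0 + m 1 ∧ 2 * n ≤ m 1 + m 2 ∧ 3 * n ≤ m 1 + 2 * m 2 := by
  simp [E, F, and_comm]

lemma E_up (n : ℕ) : Up (E n) := fun m hm m' e => (F_dep n e).up m (hm e) m'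

variable (k) in
/-- The ideal. -/
noncomputable abbrev II : Ideal (MvPolynomial (Fin 3) k) :=
  Ideal.span {X 0 * X 2 ^ 2, X 0 * X 1 * X 2, X 1 ^ 2 * X 2, X 1 ^ 3}

lemma II_eq : II k = MI k (E 1) := by
  refine le_antisymm (Ideal.span_le.2 ?_) (Ideal.span_le.2 ?_)
  · have h : ∀ a b c, v3 a b c ∈ E 1 → (X 0 ^ a * X 1 ^ b * X 2 ^ c : MvPolynomial (Fin 3) k) ∈
        MI k (E 1) := fun a b c h => mono3 (k := k) a b c ▸ mono_mem_MI h
    rintro _ (rfl | rfl | rfl | rfl)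
    · simpa using h 1 0 2 (by simp [mem_E])
    · simpa using h 1 1 1 (by simp [mem_E])
    · simpa using h 0 2 1 (by simp [mem_E])
    · simpa using h 0 3 0 (by simp [mem_E])
  · rintro _ ⟨m, hm, rfl⟩
    have key : ∀ a b c, a ≤ m 0 → b ≤ m 1 → c ≤ m 2 → (X 0 ^ a * X 1 ^ b * X 2 ^ c :
        MvPolynomial (Fin 3) k) ∈ II k → (monomial m 1 : MvPolynomial (Fin 3) k) ∈ II k := by
      intro a b c h0 h1 h2 h
      rw [show m = v3 (m 0 - a) (m 1 - b) (m 2 - c) + v3 a b c from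
        ext3 (by simp; omega) (by simp; omega) (by simp; omega), ← one_mul (1 : k), ← monomial_mul,
        mono3 a]
      exact Ideal.mul_mem_left _ _ h
    rw [mem_E] at hm
    by_cases h3 : 3 ≤ m 1
    · exact key 0 3 0 (by omega) h3 (by omega) (Ideal.subset_span (by simp))
    by_cases h2 : 2 ≤ m 1
    · exact key 0 2 1 (by omega) h2 (by omega) (Ideal.subset_span (by simp))
    by_cases h1 : 1 ≤ m 1
    · exact key 1 1 1 (by omega) h1 (by omega) (Ideal.subset_span (by simp))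
    · exact key 1 0 2 (by omega) (by omega) (by omega) (Ideal.subset_span (by simp))

lemma F_sub (e : Bool) : F 1 e ⊆ VG (G e) := by
  intro m hm
  cases e <;> simp [F, G, VG] at hm ⊢ <;> omega

lemma ass : associatedPrimes _ (MvPolynomial (Fin 3) k ⧸ II k) = (II k).minimalPrimes := by
  refine Set.Subset.antisymm (fun P hP => ?_) (by
    simpa [Ideal.annihilator_quotient] using
      Module.associatedPrimes.minimalPrimes_annihilator_subset_associatedPrimes
        (MvPolynomial (Fin 3) k) (MvPolynomial (Fin 3) k ⧸ II k))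
  obtain ⟨hp, f, hf⟩ := isAssociatedPrime_iff.1 hP
  obtain ⟨f, rfl⟩ := Ideal.Quotient.mk_surjective f
  have hm : ∀ g, g ∈ P ↔ g * f ∈ II k := fun g => by
    rw [hf, Submodule.mem_colon_singleton, Submodule.mem_bot]
    exact Ideal.Quotient.eq_zero_iff_mem (a := g * f)
  have le : ∀ e, II k ≤ MI k (F 1 e) := fun e => II_eq (k := k) ▸ MI_mono fun m hm => hm e
  obtain ⟨e, he⟩ : ∃ e, f ∉ MI k (F 1 e) := by
    by_contra h
    push Not at h
    refine hp.ne_top ((Ideal.eq_top_iff_one _).2 ((hm 1).2 ?_))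
    rw [one_mul, II_eq]
    exact (mem_MI (E_up 1)).2 fun m h1 e => (mem_MI (F_dep 1 e).up).1 (h e) m h1
  have h1 : P ≤ MI k (VG (G e)) := fun g hg =>
    by_contra fun h => he (primary (F_dep 1 e) h (le e ((hm g).1 hg)))
  have h2 : ∀ Q : Ideal (MvPolynomial (Fin 3) k), Q.IsPrime → II k ≤ Q → Q ≤ MI k (VG (G e)) →
      MI k (VG (G e)) ≤ Q := by
    intro Q hQ h3 h4
    have a1 : X 1 ∈ Q := hQ.mem_of_pow_mem 3 (h3 (Ideal.subset_span (by simp)))
    have a2 := hQ.mem_or_mem (h3 (Ideal.subset_span (by simp) : X 0 * X 2 ^ 2 ∈ II k))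
    rw [MI_VG, Ideal.span_le]
    rintro _ ⟨g, hg, rfl⟩
    cases e
    · rcases (by simpa [G] using hg : g = 1 ∨ g = 2) with rfl | rfl
      · exact a1
      · exact hQ.mem_of_pow_mem 2 (a2.resolve_left fun h => by simpa [G] using X_mem_VG.1 (h4 h))
    · rcases (by simpa [G] using hg : g = 0 ∨ g = 1) with rfl | rfl
      · exact a2.resolve_right fun h => by
          simpa [G] using X_mem_VG.1 (h4 (hQ.mem_of_pow_mem 2 h))
      · exact a1
  have h3 : II k ≤ P := fun g hg => (hm g).2 (Ideal.mul_mem_right _ _ hg)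
  exact ⟨⟨hp, h3⟩, fun Q hQ h => h1.trans (h2 Q hQ.1 hQ.2 (h.trans h1))⟩

lemma symb (n : ℕ) (f : MvPolynomial (Fin 3) k) : f ∈ MI k (E n) ↔
    ∀ P ∈ associatedPrimes _ (MvPolynomial (Fin 3) k ⧸ II k), ∃ w, w ∉ P ∧ w * f ∈ II k ^ n := by
  rw [ass, II_eq]
  refine symbolic G (F 1) (F n) n 3 (fun e => F_pow e n) (F_dep 1) (F_dep n) ?_ F_sub ?_ f
  · intro e g hg
    cases e <;> simp [G] at hg <;> rcases hg with rfl | rfl <;> simp [F]
  · decide

/-- The complement of the new generators. -/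
def E' (n : ℕ) : Set (Fin 3 →₀ ℕ) := {m | m ∈ E n ∧ (3 * n ≤ m 0 + m 1 + m 2 ∨
  ∃ i a, a ∈ E n ∧ Finsupp.single i 1 + a = m)}

lemma E'_up (n : ℕ) : Up (E' n) := by
  rintro m ⟨h1, h2 | ⟨i, a, h3, rfl⟩⟩ m'
  · exact ⟨E_up n m h1 m', Or.inl (by simp only [Finsupp.add_apply]; omega)⟩
  · exact ⟨E_up n _ h1 m', Or.inr ⟨i, a + m', E_up n a h3 m', by rw [add_assoc]⟩⟩

lemma den (n : ℕ) : II k ^ (n + 2) ⊔ Ideal.span (Set.range X) * MI k (E (n + 2)) =
    MI k (E' (n + 2)) := by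
  have hX : Ideal.span (Set.range X) * MI k (E (n + 2)) =
      MI k {m | ∃ i a, a ∈ E (n + 2) ∧ Finsupp.single i 1 + a = m} := by
    rw [show (Ideal.span (Set.range X) : Ideal (MvPolynomial (Fin 3) k)) =
      MI k (Set.range fun i => Finsupp.single i 1) by rw [MI, ← Set.range_comp]; rfl]
    refine MI_mul fun m => ⟨?_, ?_⟩
    · rintro ⟨i, a, h, rfl⟩
      exact ⟨_, ⟨i, rfl⟩, a, h, rfl⟩
    · rintro ⟨_, ⟨i, rfl⟩, a, h, rfl⟩
      exact ⟨i, a, h, rfl⟩
  rw [hX]
  refine le_antisymm (sup_le ?_ (MI_mono ?_)) (Ideal.span_le.2 ?_)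
  · have : ∀ t, II k ^ t ≤ MI k {m | m ∈ E t ∧ 3 * t ≤ m 0 + m 1 + m 2} := by
      intro t
      induction t with
      | zero => exact le_top.trans (top_le_iff.2 ((Ideal.eq_top_iff_one _).2
          (mono_mem_MI (m := 0) (by simp [mem_E]))))
      | succ t ih =>
        rw [pow_succ, II_eq (k := k)] at *
        refine (Ideal.mul_mono_left ih).trans ((MI_mul (E'' := {m | ∃ a ∈ _, ∃ b ∈ _, a + b = m})
          fun _ => Iff.rfl).le.trans (MI_mono ?_))
        rintro _ ⟨a, ha, b, hb, rfl⟩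
        simp only [Set.mem_ofPred_eq, mem_E, Finsupp.add_apply] at *
        omega
    exact (this _).trans (MI_mono fun m hm => ⟨hm.1, Or.inl hm.2⟩)
  · rintro _ ⟨i, a, h, rfl⟩
    exact ⟨add_comm a _ ▸ E_up _ a h _, Or.inr ⟨i, a, h, rfl⟩⟩
  · rintro _ ⟨m, ⟨h1, h2⟩, rfl⟩
    by_cases h : ∃ i a, a ∈ E (n + 2) ∧ Finsupp.single i 1 + a = m
    · exact Submodule.mem_sup_right (mono_mem_MI h)
    refine Submodule.mem_sup_left ?_
    have h3 := h2.resolve_right h
    push Not at h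
    have b0 := mt (h 0 (v3 (m 0 - 1) (m 1) (m 2)))
    have b1 := mt (h 1 (v3 (m 0) (m 1 - 1) (m 2)))
    have b2 := mt (h 2 (v3 (m 0) (m 1) (m 2 - 1)))
    have c0 := fun h : m 0 ≠ 0 => b0 (not_not.2 (ext3 (by simp; omega) (by simp) (by simp)))
    have c1 := fun h : m 1 ≠ 0 => b1 (not_not.2 (ext3 (by simp) (by simp; omega) (by simp)))
    have c2 := fun h : m 2 ≠ 0 => b2 (not_not.2 (ext3 (by simp) (by simp) (by simp; omega)))
    simp only [mem_E, v0, v1, v2] at h1 c0 c1 c2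
    have g0 : X 0 * X 2 ^ 2 ∈ II k := Ideal.subset_span (by simp)
    have g1 : X 0 * X 1 * X 2 ∈ II k := Ideal.subset_span (by simp)
    have g3 : X 1 ^ 3 ∈ II k := Ideal.subset_span (by simp)
    obtain h | h | h : m 1 = 0 ∨ m 1 = 1 ∨ m 1 = 3 * (n + 2) := by omega
    · rw [show m = v3 (n + 2) 0 (2 * (n + 2)) from
        ext3 (by simp; omega) (by simp; omega) (by simp; omega)]
      convert Ideal.pow_mem_pow g0 (n + 2) using 1
      simp only [mono3]; ring
    · rw [show m = v3 (n + 2) 1 (2 * n + 3) from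
        ext3 (by simp; omega) (by simp; omega) (by simp; omega), pow_succ]
      convert Ideal.mul_mem_mul (Ideal.pow_mem_pow g0 (n + 1)) g1 using 1
      simp only [mono3]; ring
    · rw [show m = v3 0 (3 * (n + 2)) 0 from
        ext3 (by simp; omega) (by simp; omega) (by simp; omega)]
      convert Ideal.pow_mem_pow g3 (n + 2) using 1
      simp only [mono3]; ring

lemma count (n : ℕ) (J : Finset ℕ) (hJ : ∀ j, j ∈ J ↔ 2 ≤ j ∧ j < 3 * (n + 2) ∧
    (j ≤ n + 2 ∨ (j ≤ 2 * (n + 2) ∧ j % 2 = 0) ∨ j % 2 = n % 2)) :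
    Module.finrank k (MI k (E (n + 2)) ⧸ Submodule.submoduleOf (MI k (E' (n + 2)))
      (MI k (E (n + 2)))) = J.card := by
  classical
  rw [rank_quot (E_up _) (E'_up _) (J.image fun j => v3 ((2 * (n + 2) - j + 1) / 2) j
    (max (2 * (n + 2) - j) ((3 * (n + 2) - j + 1) / 2))), Finset.card_image_of_injective]
  · exact fun a b h => by simpa using congrArg (· 1) h
  intro m
  simp only [Finset.mem_image, hJ]
  constructor
  · rintro ⟨j, hj, rfl⟩
    refine ⟨by simp only [mem_E, v0, v1, v2]; omega, ?_⟩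
    rintro ⟨-, h | ⟨i, a, ha, h⟩⟩
    · simp only [v0, v1, v2] at h
      omega
    · have h0 := congrArg (· 0) h
      have h1 := congrArg (· 1) h
      have h2 := congrArg (· 2) h
      rw [mem_E] at ha
      fin_cases i <;> simp at h0 h1 h2 <;> omega
  · rintro ⟨h1, h2⟩
    have h : ¬ _ := fun h => h2 ⟨h1, h⟩
    push Not at h
    obtain ⟨h3, h⟩ := h
    have b0 := mt (h 0 (v3 (m 0 - 1) (m 1) (m 2)))
    have b1 := mt (h 1 (v3 (m 0) (m 1 - 1) (m 2)))
    have b2 := mt (h 2 (v3 (m 0) (m 1) (m 2 - 1)))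
    have c0 := fun h : m 0 ≠ 0 => b0 (not_not.2 (ext3 (by simp; omega) (by simp) (by simp)))
    have c1 := fun h : m 1 ≠ 0 => b1 (not_not.2 (ext3 (by simp) (by simp; omega) (by simp)))
    have c2 := fun h : m 2 ≠ 0 => b2 (not_not.2 (ext3 (by simp) (by simp) (by simp; omega)))
    simp only [mem_E, v0, v1, v2] at h1 c0 c1 c2
    exact ⟨m 1, by omega, ext3 (by simp; omega) rfl (by simp only [v2]; omega)⟩

end Pool.Agent.Sdef
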